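import Mathlib

namespace Pool.Agent.H.MP_f4be1e_co

open Finset

/-- chains with weak steps allowed where `e i = 1` -/
noncomputable def cnt (m : ℕ) (e : ℕ → ℕ) (n : ℕ) : ℕ := by
  classical
  exact ((Fintype.piFinset (fun _ : Fin (m + 1) => range n)).filter
    (fun u => ∀ i : Fin m, u i.castSucc < u i.succ + e i)).card

theorem chain_le {m : ℕ} (e : ℕ → ℕ) (he : ∀ i, e i ≤ 1) (u : Fin (m + 1) → ℕ)
    (hu : ∀ i : Fin m, u i.castSucc < u i.succ + e i) : Monotone u := by
  rw [Fin.monotone_iff_le_succ]
  intro i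
  have := hu i
  have := he i
  omega

theorem cnt_succ (m : ℕ) (e : ℕ → ℕ) (he : ∀ i, e i ≤ 1) (n : ℕ) :
    cnt (m + 1) e n = ∑ t ∈ range n, cnt m e (t + e m) := by
  classical
  unfold cnt
  rw [Finset.card_eq_sum_card_fiberwise (f := fun u => u (Fin.last (m + 1))) (t := range n)]
  · refine Finset.sum_congr rfl fun t ht => ?_
    refine Finset.card_bij' (fun u _ => Fin.init u) (fun u _ => Fin.snoc u t) ?_ ?_ ?_ ?_
    · intro u hu
      simp only [mem_filter, Fintype.mem_piFinset, mem_range] at hu ⊢
      obtain ⟨⟨h1, h2⟩, h3⟩ := hu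
      have hm := chain_le e he u h2
      refine ⟨fun a => ?_, fun i => ?_⟩
      · have h4 := h2 (Fin.last m)
        have h5 : u a.castSucc ≤ u (Fin.last m).castSucc :=
          hm (Fin.castSucc_le_castSucc_iff.2 (Fin.le_last a))
        have h6 : u (Fin.last m).succ = t := h3
        rw [h6, Fin.val_last] at h4
        simp only [Fin.init]
        omega
      · exact h2 i.castSucc
    · intro u hu
      simp only [mem_filter, Fintype.mem_piFinset, mem_range] at hu ht ⊢
      obtain ⟨h1, h2⟩ := hu
      refine ⟨⟨fun a => ?_, fun i => ?_⟩, by simp⟩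
      · refine Fin.lastCases ?_ (fun a => ?_) a
        · simpa using ht
        · have := h1 a
          have := he m
          simp only [Fin.snoc_castSucc]
          omega
      · refine Fin.lastCases ?_ (fun i => ?_) i
        · have := h1 (Fin.last m)
          simpa [Fin.succ_last] using this
        · have := h2 i
          rw [Fin.succ_castSucc, Fin.snoc_castSucc, Fin.snoc_castSucc]
          exact this
    · intro u hu
      simp only [mem_filter] at hu
      rw [← hu.2]
      exact Fin.snoc_init_self u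
    · intro u _
      exact Fin.init_snoc _ _
  · intro u hu
    simp only [coe_filter, Fintype.mem_piFinset, Set.mem_ofPred_eq] at hu
    exact mem_coe.2 (hu.1 _)

theorem sum_choose (a k n : ℕ) (ha : a < k + 1) :
    ∑ t ∈ range n, (t + a).choose k = (n + a).choose (k + 1) := by
  induction n with
  | zero => simp [Nat.choose_eq_zero_of_lt ha]
  | succ n ih =>
    rw [sum_range_succ, ih, show n + 1 + a = (n + a) + 1 by ring, Nat.choose_succ_succ']
    ring

theorem cnt_eq (m : ℕ) (e : ℕ → ℕ) (he : ∀ i, e i ≤ 1) (n : ℕ) :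
    cnt m e n = (n + ∑ i ∈ range m, e i).choose (m + 1) := by
  induction m generalizing n with
  | zero =>
    unfold cnt
    simp
  | succ m ih =>
    rw [cnt_succ m e he]
    simp_rw [ih]
    have h1 : ∑ i ∈ range (m + 1), e i ≤ m + 1 := by
      calc ∑ i ∈ range (m + 1), e i ≤ ∑ _i ∈ range (m + 1), 1 := sum_le_sum fun i _ => he i
        _ = m + 1 := by simp
    rw [← sum_choose _ _ _ (by omega)]
    refine sum_congr rfl fun t _ => ?_
    rw [sum_range_succ]
    congr 1
    ring

/-- proper colourings for a constraint set -/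
noncomputable def chi {d : ℕ} (E : Finset (Fin d × Fin d)) (n : ℕ) : ℕ := by
  classical
  exact ((Fintype.piFinset (fun _ : Fin d => range n)).filter
    (fun f => ∀ p ∈ E, f p.1 ≠ f p.2)).card

/-- the orientation of the constraints induced by an ordering -/
def ori {d : ℕ} (E : Finset (Fin d × Fin d)) (s : Equiv.Perm (Fin d)) : Fin d × Fin d → Prop :=
  fun p => p ∈ E ∧ s.symm p.1 < s.symm p.2

/-- ascent indicator -/
def asc {m : ℕ} (l : Fin (m + 1) → ℤ) (i : ℕ) : ℕ :=
  if h : i < m then (if l (Fin.castSucc ⟨i, h⟩) < l (Fin.succ ⟨i, h⟩) then 1 else 0) else 0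

theorem asc_le {m : ℕ} (l : Fin (m + 1) → ℤ) (i : ℕ) : asc l i ≤ 1 := by
  unfold asc
  split_ifs <;> omega

theorem ori_eq {d : ℕ} (E : Finset (Fin d × Fin d)) (f : Fin d → ℕ)
    (hf : ∀ p ∈ E, f p.1 ≠ f p.2) (s t : Equiv.Perm (Fin d)) (hs : Monotone (f ∘ s))
    (ht : Monotone (f ∘ t)) : ori E s = ori E t := by
  have key : ∀ s : Equiv.Perm (Fin d), Monotone (f ∘ s) → ∀ p ∈ E,
      (s.symm p.1 < s.symm p.2 ↔ f p.1 < f p.2) := by
    intro s hs p hp
    constructor
    · intro h
      have := hs h.le
      simp only [Function.comp, Equiv.apply_symm_apply] at this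
      exact lt_of_le_of_ne this (hf p hp)
    · intro h
      by_contra h'
      have := hs (not_lt.1 h')
      simp only [Function.comp, Equiv.apply_symm_apply] at this
      omega
  funext p
  unfold ori
  by_cases hp : p ∈ E
  · simp [hp, key s hs p hp, key t ht p hp]
  · simp [hp]

theorem lex_mono {d : ℕ} (f : Fin d → ℕ) (l : Fin d → ℤ)
    (h : Monotone (fun i => toLex (f i, l i))) : Monotone f := by
  intro i j hij
  have := h hij
  rw [Prod.Lex.le_iff] at this
  simp only [ofLex_toLex] at this
  omega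

theorem chi_eq {m : ℕ} (E : Finset (Fin (m + 1) × Fin (m + 1))) (hE : ∀ p ∈ E, p.1 ≠ p.2)
    (L : Equiv.Perm (Fin (m + 1)) → Fin (m + 1) → ℤ) (h1 : ∀ s, Function.Injective (L s))
    (h2 : ∀ s t, ori E s = ori E t → L s = L t)
    (h3 : ∀ s, ∀ p ∈ E, (s.symm p.1 < s.symm p.2 ↔ L s p.2 < L s p.1)) (n : ℕ) :
    chi E n = ∑ s : Equiv.Perm (Fin (m + 1)),
      (n + ∑ i ∈ range m, asc (L s ∘ s) i).choose (m + 1) := by
  classical
  obtain ⟨P, hP⟩ : ∃ P : (Fin (m + 1) → ℕ) → Equiv.Perm (Fin (m + 1)) → Prop,
      P = fun f s => StrictMono (fun i => toLex (f (s i), L s (s i))) := ⟨_, rfl⟩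
  have hprop : ∀ f s, P f s → ∀ p ∈ E, f p.1 ≠ f p.2 := by
    intro f s h p hp heq
    rw [hP] at h
    have hne : s.symm p.1 ≠ s.symm p.2 := fun h => hE p hp (s.symm.injective h)
    have h4 := h3 s p hp
    rcases lt_or_gt_of_ne hne with h5 | h5
    · have := h h5
      rw [Prod.Lex.lt_iff] at this
      simp only [ofLex_toLex, Equiv.apply_symm_apply] at this
      have := h4.1 h5
      omega
    · have := h h5
      rw [Prod.Lex.lt_iff] at this
      simp only [ofLex_toLex, Equiv.apply_symm_apply] at this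
      have h6 : L s p.2 < L s p.1 := by omega
      exact absurd (h4.2 h6) (not_lt.2 h5.le)
  have huniq : ∀ f, (∀ p ∈ E, f p.1 ≠ f p.2) → ∃! s, P f s := by
    intro f hf
    have hinj : ∀ s, Function.Injective (fun v => toLex (f v, L s v)) := by
      intro s a b hab
      have := congrArg (fun x => (ofLex x).2) hab
      exact h1 s this
    obtain ⟨s, hs⟩ : ∃ s, s = Tuple.sort (fun v => toLex (f v, L (Tuple.sort f) v)) := ⟨_, rfl⟩
    have hm : Monotone ((fun v => toLex (f v, L (Tuple.sort f) v)) ∘ s) := by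
      rw [hs]; exact Tuple.monotone_sort _
    have hfs : Monotone (f ∘ s) := lex_mono (f ∘ s) (L (Tuple.sort f) ∘ s) hm
    have hL : L s = L (Tuple.sort f) := h2 _ _ (ori_eq E f hf _ _ hfs (Tuple.monotone_sort f))
    refine ⟨s, ?_, fun t ht => ?_⟩
    · rw [hP]
      beta_reduce
      rw [hL]
      exact hm.strictMono_of_injective ((hinj _).comp s.injective)
    · rw [hP] at ht
      have hft : Monotone (f ∘ t) := lex_mono (f ∘ t) (L t ∘ t) ht.monotone
      have hL' : L t = L (Tuple.sort f) := h2 _ _ (ori_eq E f hf _ _ hft (Tuple.monotone_sort f))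
      beta_reduce at ht
      rw [hL'] at ht
      have := Tuple.unique_monotone (f := fun v => toLex (f v, L (Tuple.sort f) v)) (σ := t)
        (τ := s) ht.monotone hm
      ext i
      have h7 := hinj _ (congrFun this i)
      rw [h7]
  have hcnt : ∀ s, ((Fintype.piFinset (fun _ : Fin (m + 1) => range n)).filter
      (fun f => P f s)).card = (n + ∑ i ∈ range m, asc (L s ∘ s) i).choose (m + 1) := by
    intro s
    rw [← cnt_eq m _ (asc_le _)]
    unfold cnt
    refine Finset.card_bij' (fun f _ => f ∘ s) (fun u _ => u ∘ s.symm) ?_ ?_ ?_ ?_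
    · intro f hf
      simp only [mem_filter, Fintype.mem_piFinset, mem_range, hP] at hf ⊢
      refine ⟨fun a => hf.1 _, fun i => ?_⟩
      have := hf.2 (Fin.castSucc_lt_succ (i := i))
      rw [Prod.Lex.lt_iff] at this
      simp only [ofLex_toLex] at this
      unfold asc
      simp only [i.2, dif_pos, Fin.eta, Function.comp]
      split_ifs <;> omega
    · intro u hu
      simp only [mem_filter, Fintype.mem_piFinset, mem_range, hP] at hu ⊢
      refine ⟨fun a => hu.1 _, ?_⟩
      rw [Fin.strictMono_iff_lt_succ]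
      intro i
      have := hu.2 i
      unfold asc at this
      simp only [i.2, dif_pos, Fin.eta, Function.comp] at this
      rw [Prod.Lex.lt_iff]
      simp only [ofLex_toLex, Function.comp, Equiv.symm_apply_apply]
      split_ifs at this <;> omega
    · intro f _
      funext i
      simp
    · intro u _
      funext i
      simp
  simp_rw [← hcnt]
  unfold chi
  simp_rw [Finset.card_filter]
  rw [Finset.sum_comm]
  refine sum_congr rfl fun f _ => ?_
  rw [← Finset.card_filter]
  split_ifs with hf
  · obtain ⟨s, hs, hs'⟩ := huniq f hf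
    symm
    rw [Finset.card_eq_one]
    refine ⟨s, ?_⟩
    ext t
    simp only [mem_filter, mem_univ, true_and, mem_singleton]
    exact ⟨hs' t, fun h => h ▸ hs⟩
  · symm
    rw [Finset.card_eq_zero, Finset.filter_eq_empty_iff]
    exact fun s _ h => hf (hprop f s h)

theorem exists_lab {d : ℕ} (E : Finset (Fin d × Fin d)) :
    ∃ L : Equiv.Perm (Fin d) → Fin d → ℤ, (∀ s, Function.Injective (L s)) ∧
      (∀ s t, ori E s = ori E t → L s = L t) ∧
      (∀ s, ∀ p ∈ E, (s.symm p.1 < s.symm p.2 ↔ L s p.2 < L s p.1)) := by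
  classical
  refine ⟨fun s v => -(((Function.invFun (ori E) (ori E s)).symm v : ℕ) : ℤ), ?_, ?_, ?_⟩
  · intro s a b hab
    simp only [neg_inj, Nat.cast_inj] at hab
    exact (Function.invFun (ori E) (ori E s)).symm.injective (Fin.ext hab)
  · intro s t h
    beta_reduce
    rw [h]
  · intro s p hp
    have h := congrFun (Function.invFun_eq (f := ori E) (b := ori E s) ⟨s, rfl⟩) p
    beta_reduce
    generalize Function.invFun (ori E) (ori E s) = r at h ⊢
    unfold ori at h
    simp only [hp, true_and, eq_iff_iff] at h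
    rw [← h, Fin.lt_def]
    omega

end Pool.Agent.H.MP_f4be1e_co
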