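import Pool.Agent.H.MP_f4be1e_co.A

namespace Pool.Agent.H.MP_f4be1e_co

open Finset PowerSeries

/-- numerator series -/
noncomputable def hS {d : ℕ} (E : Finset (Fin d × Fin d)) : PowerSeries ℤ :=
  (1 - X) ^ (d + 1) * PowerSeries.mk (fun n => (chi E n : ℤ))

theorem num_choose (d a : ℕ) (ha : a ≤ d) :
    (1 - X : PowerSeries ℤ) ^ (d + 1) * PowerSeries.mk (fun n => (((n + a).choose d : ℕ) : ℤ))
      = X ^ (d - a) := by
  have h := mk_add_choose_mul_one_sub_pow_eq_one ℤ d
  have h2 : PowerSeries.mk (fun n => (((n + a).choose d : ℕ) : ℤ))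
      = X ^ (d - a) * PowerSeries.mk (fun n => (((d + n).choose d : ℕ) : ℤ)) := by
    ext n
    rw [coeff_X_pow_mul']
    split_ifs with h3
    · simp only [coeff_mk]
      congr 2
      omega
    · rw [coeff_mk, Nat.choose_eq_zero_of_lt (by omega)]
      simp
  rw [h2, mul_left_comm, mul_comm ((1 - X) ^ (d + 1)), h, mul_one]

theorem sum_asc_le {m : ℕ} (l : Fin (m + 1) → ℤ) : ∑ i ∈ range m, asc l i ≤ m := by
  calc ∑ i ∈ range m, asc l i ≤ ∑ _i ∈ range m, 1 := sum_le_sum fun i _ => asc_le l i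
    _ = m := by simp

theorem sum_asc_neg {m : ℕ} (l : Fin (m + 1) → ℤ) (hl : Function.Injective l) :
    ∑ i ∈ range m, asc (-l) i + ∑ i ∈ range m, asc l i = m := by
  rw [← sum_add_distrib]
  calc ∑ i ∈ range m, (asc (-l) i + asc l i) = ∑ _i ∈ range m, 1 := by
        refine sum_congr rfl fun i hi => ?_
        have hi' := mem_range.1 hi
        unfold asc
        simp only [hi', dif_pos, Pi.neg_apply]
        have : l (Fin.castSucc ⟨i, hi'⟩) ≠ l (Fin.succ ⟨i, hi'⟩) := fun h =>
          (Fin.castSucc_lt_succ (i := ⟨i, hi'⟩)).ne (hl h)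
        split_ifs <;> omega
    _ = m := by simp

theorem hS_eq {m : ℕ} (E : Finset (Fin (m + 1) × Fin (m + 1))) (hE : ∀ p ∈ E, p.1 ≠ p.2)
    (L : Equiv.Perm (Fin (m + 1)) → Fin (m + 1) → ℤ) (h1 : ∀ s, Function.Injective (L s))
    (h2 : ∀ s t, ori E s = ori E t → L s = L t)
    (h3 : ∀ s, ∀ p ∈ E, (s.symm p.1 < s.symm p.2 ↔ L s p.2 < L s p.1)) :
    hS E = ∑ s : Equiv.Perm (Fin (m + 1)), X ^ (m + 1 - ∑ i ∈ range m, asc (L s ∘ s) i) := by
  unfold hS
  have : PowerSeries.mk (fun n => (chi E n : ℤ)) = ∑ s : Equiv.Perm (Fin (m + 1)),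
      PowerSeries.mk (fun n => (((n + ∑ i ∈ range m, asc (L s ∘ s) i).choose (m + 1) : ℕ) : ℤ)) := by
    ext n
    rw [map_sum]
    simp only [coeff_mk]
    rw [chi_eq E hE L h1 h2 h3]
    push_cast
    rfl
  rw [this, Finset.mul_sum]
  refine sum_congr rfl fun s _ => ?_
  exact num_choose _ _ ((sum_asc_le _).trans (Nat.le_succ m))

theorem hS_loop {d : ℕ} (E : Finset (Fin d × Fin d)) (hE : ¬ ∀ p ∈ E, p.1 ≠ p.2) : hS E = 0 := by
  push Not at hE
  obtain ⟨p, hp, hp'⟩ := hE
  have : PowerSeries.mk (fun n => (chi E n : ℤ)) = 0 := by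
    ext n
    simp only [coeff_mk, map_zero, Nat.cast_eq_zero]
    unfold chi
    rw [Finset.card_eq_zero, Finset.filter_eq_empty_iff]
    intro f _ h
    exact h p hp (by rw [hp'])
  unfold hS
  rw [this, mul_zero]

theorem hS_basic {m : ℕ} (E : Finset (Fin (m + 1) × Fin (m + 1))) :
    (∀ k, 0 ≤ coeff k (hS E)) ∧ coeff 0 (hS E) = 0 ∧ ∀ k, m + 1 < k → coeff k (hS E) = 0 := by
  by_cases hE : ∀ p ∈ E, p.1 ≠ p.2
  · obtain ⟨L, h1, h2, h3⟩ := exists_lab E
    rw [hS_eq E hE L h1 h2 h3]
    refine ⟨fun k => ?_, ?_, fun k hk => ?_⟩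
    · rw [map_sum]
      refine sum_nonneg fun s _ => ?_
      rw [coeff_X_pow]
      split_ifs <;> simp
    · rw [map_sum]
      refine sum_eq_zero fun s _ => ?_
      have := sum_asc_le (L s ∘ s)
      rw [coeff_X_pow, if_neg (by omega)]
    · rw [map_sum]
      refine sum_eq_zero fun s _ => ?_
      rw [coeff_X_pow, if_neg (by omega)]
  · rw [hS_loop E hE]
    simp

theorem hS_empty {m : ℕ} (k : ℕ) (hk : k ≤ m) :
    coeff (m + 1 - k) (hS (∅ : Finset (Fin (m + 1) × Fin (m + 1))))
      = coeff (k + 1) (hS (∅ : Finset (Fin (m + 1) × Fin (m + 1)))) := by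
  have hi : Function.Injective (fun v : Fin (m + 1) => ((v : ℕ) : ℤ)) := by
    intro a b h
    exact Fin.ext (by simpa using h)
  have e1 := hS_eq (m := m) ∅ (by simp) (fun _ v => ((v : ℕ) : ℤ)) (fun _ => hi)
    (fun _ _ _ => rfl) (by simp)
  have e2 := hS_eq (m := m) ∅ (by simp) (fun _ => -(fun v : Fin (m + 1) => ((v : ℕ) : ℤ)))
    (fun _ => neg_injective.comp hi) (fun _ _ _ => rfl) (by simp)
  conv_lhs => rw [e1]
  conv_rhs => rw [e2]
  rw [map_sum, map_sum]
  refine sum_congr rfl fun s _ => ?_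
  have h := sum_asc_neg ((fun v : Fin (m + 1) => ((v : ℕ) : ℤ)) ∘ s) (hi.comp s.injective)
  have h' : (-fun v : Fin (m + 1) => ((v : ℕ) : ℤ)) ∘ s
      = -((fun v : Fin (m + 1) => ((v : ℕ) : ℤ)) ∘ s) := rfl
  rw [coeff_X_pow, coeff_X_pow, h']
  refine if_congr ?_ rfl rfl
  omega

theorem chi_contract {m : ℕ} (E : Finset (Fin (m + 2) × Fin (m + 2))) (u v : Fin (m + 2))
    (huv : u ≠ v) : ∃ F : Finset (Fin (m + 1) × Fin (m + 1)),
      ∀ n, chi E n = chi (insert (u, v) E) n + chi F n := by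
  classical
  obtain ⟨w, hw⟩ := Fin.exists_succAbove_eq huv
  obtain ⟨q, hq⟩ : ∃ q : Fin (m + 2) → Fin (m + 1), q = Fin.insertNth v w id := ⟨_, rfl⟩
  have q1 : q v = w := by rw [hq]; simp
  have q2 : ∀ a, q (v.succAbove a) = a := by intro a; rw [hq]; simp
  have q3 : ∀ (f : Fin (m + 2) → ℕ), f u = f v → ∀ a, f (v.succAbove (q a)) = f a := by
    intro f hf a
    refine Fin.succAboveCases v ?_ (fun a => ?_) a
    · rw [q1, hw, hf]
    · rw [q2]
  refine ⟨E.image (fun p => (q p.1, q p.2)), fun n => ?_⟩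
  unfold chi
  rw [← Finset.card_filter_add_card_filter_not (p := fun f : Fin (m + 2) → ℕ => f u ≠ f v)]
  congr 1
  · congr 1
    ext f
    simp only [mem_filter, forall_mem_insert]
    tauto
  · refine Finset.card_bij' (fun f _ => f ∘ v.succAbove) (fun g _ => g ∘ q) ?_ ?_ ?_ ?_
    · intro f hf
      simp only [mem_filter, Fintype.mem_piFinset, mem_range, not_not, forall_mem_image] at hf ⊢
      refine ⟨fun a => hf.1.1 _, fun p hp => ?_⟩
      simp only [Function.comp]
      rw [q3 f hf.2, q3 f hf.2]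
      exact hf.1.2 p hp
    · intro g hg
      simp only [mem_filter, Fintype.mem_piFinset, mem_range, not_not, forall_mem_image] at hg ⊢
      refine ⟨⟨fun a => hg.1 _, fun p hp => hg.2 hp⟩, ?_⟩
      simp only [Function.comp]
      rw [q1, ← hw, q2]
    · intro f hf
      simp only [mem_filter, not_not] at hf
      funext a
      exact q3 f hf.2 a
    · intro g _
      funext a
      simp only [Function.comp, q2]

theorem hS_contract {m : ℕ} (E : Finset (Fin (m + 2) × Fin (m + 2))) (u v : Fin (m + 2))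
    (huv : u ≠ v) : ∃ F : Finset (Fin (m + 1) × Fin (m + 1)),
      hS (insert (u, v) E) = hS E - (hS F - X * hS F) := by
  obtain ⟨F, hF⟩ := chi_contract E u v huv
  refine ⟨F, ?_⟩
  have : PowerSeries.mk (fun n => (chi E n : ℤ))
      = PowerSeries.mk (fun n => (chi (insert (u, v) E) n : ℤ))
        + PowerSeries.mk (fun n => (chi F n : ℤ)) := by
    ext n
    simp only [coeff_mk, map_add, hF n]
    push_cast
    rfl
  unfold hS
  rw [this]
  ring

theorem main {m : ℕ} (E : Finset (Fin (m + 1) × Fin (m + 1))) (i : ℕ) (hi : i ≤ m + 1) :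
    ∑ k ∈ range (i + 1), coeff k (hS E) ≤ ∑ k ∈ range i, coeff (m + 1 - k) (hS E) := by
  classical
  induction E using Finset.induction_on with
  | empty =>
    rw [sum_range_succ', (hS_basic _).2.1, add_zero]
    refine le_of_eq (sum_congr rfl fun k hk => ?_)
    have := mem_range.1 hk
    exact (hS_empty k (by omega)).symm
  | insert p E _ ih =>
    obtain ⟨u, v⟩ := p
    by_cases huv : u = v
    · rw [hS_loop _ (fun h => h (u, v) (mem_insert_self _ _) huv)]
      simp
    · obtain _ | m := m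
      · exact absurd (Subsingleton.elim (α := Fin 1) u v) huv
      obtain ⟨F, hF⟩ := hS_contract E u v huv
      obtain ⟨b1, b2, b3⟩ := hS_basic F
      rw [hF]
      have t1 : ∀ j, ∑ k ∈ range (j + 1), coeff k (hS F - X * hS F) = coeff j (hS F) := by
        intro j
        induction j with
        | zero => simp
        | succ j ihj =>
          rw [sum_range_succ, ihj, map_sub, coeff_succ_X_mul]
          ring
      have t2 : ∀ j, j ≤ m + 2 → ∑ k ∈ range j, coeff (m + 2 - k) (hS F - X * hS F)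
          = - coeff (m + 2 - j) (hS F) := by
        intro j
        induction j with
        | zero => intro _; simp [b3]
        | succ j ihj =>
          intro hj
          rw [sum_range_succ, ihj (by omega), map_sub,
            show m + 2 - j = (m + 2 - (j + 1)) + 1 by omega, coeff_succ_X_mul]
          ring
      have t3 := t1 i
      have t4 := t2 i hi
      have := b1 i
      have := b1 (m + 2 - i)
      simp only [map_sub (coeff _) (hS E), sum_sub_distrib]
      have t5 : m + 1 + 1 = m + 2 := rfl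
      simp only [t5] at ih ⊢
      linarith

end Pool.Agent.H.MP_f4be1e_co
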